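import Pool.Agent.H93.PG.Targets

/-!
# MP_32ebde_an, row SA2A: many words start and end with `eee`, if there are few words without cubes
-/

set_option autoImplicit false

open MeasureTheory Filter Topology Finset Pool.Agent.H93.PF Pool.Agent.H93.PG

namespace Pool.Agent.H94.PG

/-- a cube of the letter `a` at the place `x` -/
def Cb {n : ℕ} (w : Fin n → Fin 2) (x : ℕ) (a : Fin 2) : Prop :=
  ∀ (i : ℕ) (h : i < n), x ≤ i → i < x + 3 → w ⟨i, h⟩ = a

theorem gd_fac {A : Type} {m : ℕ → ℕ} {n : ℕ} {w : Fin n → A} (hw : Gd m w) (i l : ℕ)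
    (h : i + l ≤ n) : Gd m (fun x : Fin l => w ⟨i + x, by omega⟩) := by
  intro q i' hq hi' hper
  refine hw q (i + i') hq (by omega) fun j hj hij hjl => ?_
  have h1 := hper (j - i) (by omega) (by omega) (by omega)
  have e1 : i + (j - i + q) = j + q := by omega
  have e2 : i + (j - i) = j := by omega
  simp only [e1, e2] at h1
  exact h1

theorem spl' (hSPL : T_SPL) (m : ℕ → ℕ) (n i j : ℕ) (h : i + j ≤ n)
    (S : Finset (Fin j → Fin 2)) (T : Finset (Fin n → Fin 2)) (hT : ∀ w ∈ T, w ∈ FF 2 m n ∧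
      (fun x : Fin j => w ⟨i + x, by omega⟩) ∈ S) :
    T.card ≤ (FF 2 m i).card * S.card * (FF 2 m (n - i - j)).card := by
  classical
  obtain ⟨k, rfl⟩ := Nat.exists_eq_add_of_le h
  have e : i + j + k - i - j = k := by omega
  rw [e]
  refine le_trans (card_le_card ?_) (hSPL 2 m i j k S)
  intro w hw
  rw [mem_filter]
  exact hT w hw

open Classical in
/-- words which start and end with the same cube -/
noncomputable def SE (m : ℕ → ℕ) (n : ℕ) : Finset (Fin n → Fin 2) :=
  (FF 2 m n).filter fun w => ∃ a, Cb w 0 a ∧ Cb w (n - 3) a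

theorem card_SE (m : ℕ → ℕ) (c : CT 2 m) (hY : c.t.Y = 3) (n : ℕ) (hn : 3 ≤ n) :
    (SE m n).card ≤ 2 * (NN c.t n).card := by
  classical
  have hmem : ∀ w : Fin n → Fin 2, w ∈ FF 2 m n → Cb w 0 c.e → Cb w (n - 3) c.e →
      w ∈ NN c.t n := by
    intro w hw h1 h2
    unfold FF at hw
    rw [mem_filter] at hw
    unfold NN
    rw [mem_filter]
    refine ⟨mem_univ _, hw.2, ?_, ?_, ?_⟩
    · intro i h hi
      rw [c.ye]
      exact h1 i h (Nat.zero_le _) (by omega)
    · omega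
    · intro i h hi
      rw [c.ye]
      exact h2 _ h (by omega) (by omega)
  have hsub : SE m n ⊆ NN c.t n ∪ (NN c.t n).image (fun w x => Equiv.swap 0 1 (w x)) := by
    intro w hw
    unfold SE at hw
    rw [mem_filter] at hw
    obtain ⟨hw1, a, h1, h2⟩ := hw
    rw [mem_union]
    by_cases ha : a = c.e
    · left
      rw [ha] at h1 h2
      exact hmem w hw1 h1 h2
    · right
      have hsw : ∀ a e : Fin 2, a ≠ e → Equiv.swap (0 : Fin 2) 1 a = e := by decide
      rw [mem_image]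
      refine ⟨fun x => Equiv.swap 0 1 (w x), hmem _ ?_ ?_ ?_, ?_⟩
      · unfold FF at hw1 ⊢
        rw [mem_filter] at hw1 ⊢
        refine ⟨mem_univ _, fun q i hq hi hper => hw1.2 q i hq hi fun j hj hij hjl => ?_⟩
        exact (Equiv.swap (0 : Fin 2) 1).injective (hper j hj hij hjl)
      · intro i h hi hi3
        change Equiv.swap (0 : Fin 2) 1 (w ⟨i, h⟩) = c.e
        rw [h1 i h hi hi3]
        exact hsw a c.e ha
      · intro i h hi hi3
        change Equiv.swap (0 : Fin 2) 1 (w ⟨i, h⟩) = c.e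
        rw [h2 i h hi hi3]
        exact hsw a c.e ha
      · funext x
        exact Equiv.swap_apply_self 0 1 (w x)
  refine (card_le_card hsub).trans ((card_union_le _ _).trans ?_)
  have := card_image_le (s := NN c.t n) (f := fun w x => Equiv.swap (0 : Fin 2) 1 (w x))
  omega

/-- a factor without cubes -/
theorem fac_EE {m : ℕ → ℕ} {n : ℕ} {w : Fin n → Fin 2} (hw : w ∈ FF 2 m n) (i M : ℕ)
    (h : i + M ≤ n) (hc : ¬ ∃ x a, i ≤ x ∧ x + 3 ≤ i + M ∧ Cb w x a) :
    (fun x : Fin M => w ⟨i + x, by omega⟩) ∈ EE m M := by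
  classical
  unfold FF at hw
  rw [mem_filter] at hw
  unfold EE FF
  rw [mem_filter, mem_filter]
  refine ⟨⟨mem_univ _, gd_fac hw.2 i M h⟩, ?_⟩
  rintro y hy ⟨h1, h2⟩
  apply hc
  refine ⟨i + y, w ⟨i + y, by omega⟩, by omega, by omega, ?_⟩
  intro z hz hz1 hz2
  have h3 : z = i + y ∨ z = i + (y + 1) ∨ z = i + (y + 2) := by omega
  rcases h3 with rfl | rfl | rfl
  · rfl
  · exact h1.symm
  · exact (h1.trans h2).symm

/-- a factor between two cubes -/
theorem fac_SE {m : ℕ → ℕ} {n : ℕ} {w : Fin n → Fin 2} (hw : w ∈ FF 2 m n) (x l : ℕ)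
    (a : Fin 2) (hl : 3 ≤ l) (h : x + l ≤ n) (h1 : Cb w x a) (h2 : Cb w (x + l - 3) a) :
    (fun y : Fin l => w ⟨x + y, by omega⟩) ∈ SE m l := by
  classical
  unfold FF at hw
  rw [mem_filter] at hw
  unfold SE FF
  rw [mem_filter, mem_filter]
  refine ⟨⟨mem_univ _, gd_fac hw.2 x l h⟩, a, ?_, ?_⟩
  · intro i hi h3 h4
    exact h1 (x + i) (by omega) (by omega) (by omega)
  · intro i hi h3 h4
    exact h2 (x + i) (by omega) (by omega) (by omega)

/-- the counting -/
theorem count (hSPL : T_SPL) (m : ℕ → ℕ) (c : CT 2 m) (hY : c.t.Y = 3) (M : ℕ) (hM : 3 ≤ M) :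
    (FF 2 m (5 * M)).card ≤
      ((FF 2 m 0).card * (EE m M).card * (FF 2 m (4 * M)).card +
      (FF 2 m (2 * M)).card * (EE m M).card * (FF 2 m (2 * M)).card +
      (FF 2 m (4 * M)).card * (EE m M).card * (FF 2 m 0).card) +
      ∑ z ∈ (range (5 * M + 1) ×ˢ range (5 * M + 1)).filter
        (fun z => M ≤ z.2 ∧ z.1 + z.2 ≤ 5 * M),
        (FF 2 m z.1).card * (2 * (NN c.t z.2).card) * (FF 2 m (5 * M - z.1 - z.2)).card := by
  classical
  set A : ℕ → Finset (Fin (5 * M) → Fin 2) := fun i => (FF 2 m (5 * M)).filter fun w =>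
    ¬ ∃ x a, i ≤ x ∧ x + 3 ≤ i + M ∧ Cb w x a with hA
  set B : ℕ × ℕ → Finset (Fin (5 * M) → Fin 2) := fun z => (FF 2 m (5 * M)).filter fun w =>
    ∃ a, Cb w z.1 a ∧ Cb w (z.1 + z.2 - 3) a with hB
  set I := (range (5 * M + 1) ×ˢ range (5 * M + 1)).filter
    (fun z : ℕ × ℕ => M ≤ z.2 ∧ z.1 + z.2 ≤ 5 * M) with hI
  have hAc : ∀ i, i + M ≤ 5 * M → (A i).card ≤
      (FF 2 m i).card * (EE m M).card * (FF 2 m (5 * M - i - M)).card := by
    intro i hi
    apply spl' hSPL m (5 * M) i M hi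
    intro w hw
    rw [hA, mem_filter] at hw
    exact ⟨hw.1, fac_EE hw.1 i M hi hw.2⟩
  have hBc : ∀ z ∈ I, (B z).card ≤
      (FF 2 m z.1).card * (2 * (NN c.t z.2).card) * (FF 2 m (5 * M - z.1 - z.2)).card := by
    intro z hz
    rw [hI, mem_filter] at hz
    obtain ⟨-, hz1, hz2⟩ := hz
    have h1 : (B z).card ≤
        (FF 2 m z.1).card * (SE m z.2).card * (FF 2 m (5 * M - z.1 - z.2)).card := by
      apply spl' hSPL m (5 * M) z.1 z.2 hz2
      intro w hw
      rw [hB, mem_filter] at hw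
      obtain ⟨hw1, a, h3, h4⟩ := hw
      exact ⟨hw1, fac_SE hw1 z.1 z.2 a (by omega) hz2 h3 h4⟩
    refine h1.trans ?_
    exact Nat.mul_le_mul_right _ (Nat.mul_le_mul_left _ (card_SE m c hY z.2 (by omega)))
  have hpig : ∀ a b c : Fin 2, a = b ∨ a = c ∨ b = c := by decide
  have hcov : FF 2 m (5 * M) ⊆ ((A 0 ∪ A (2 * M)) ∪ A (4 * M)) ∪ I.biUnion B := by
    intro w hw
    rw [mem_union, mem_union, mem_union]
    by_cases h0 : w ∈ A 0
    · exact Or.inl (Or.inl (Or.inl h0))
    by_cases h2 : w ∈ A (2 * M)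
    · exact Or.inl (Or.inl (Or.inr h2))
    by_cases h4 : w ∈ A (4 * M)
    · exact Or.inl (Or.inr h4)
    right
    have hex : ∀ i, w ∉ A i → ∃ x a, i ≤ x ∧ x + 3 ≤ i + M ∧ Cb w x a := by
      intro i hi
      by_contra hcon
      apply hi
      rw [hA, mem_filter]
      exact ⟨hw, hcon⟩
    obtain ⟨x0, a0, p0, q0, c0⟩ := hex 0 h0
    obtain ⟨x2, a2, p2, q2, c2⟩ := hex _ h2
    obtain ⟨x4, a4, p4, q4, c4⟩ := hex _ h4
    have key : ∀ x x' a, x + M ≤ x' → x' + 3 ≤ 5 * M → Cb w x a → Cb w x' a →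
        w ∈ I.biUnion B := by
      intro x x' a hx hx' h5 h6
      rw [mem_biUnion]
      refine ⟨(x, x' + 3 - x), ?_, ?_⟩
      · rw [hI, mem_filter, mem_product, mem_range, mem_range]
        dsimp only
        omega
      · rw [hB, mem_filter]
        refine ⟨hw, a, h5, ?_⟩
        have e : x + (x' + 3 - x) - 3 = x' := by omega
        dsimp only
        rw [e]
        exact h6
    rcases hpig a0 a2 a4 with h | h | h
    · exact key x0 x2 a0 (by omega) (by omega) c0 (h ▸ c2)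
    · exact key x0 x4 a0 (by omega) (by omega) c0 (h ▸ c4)
    · exact key x2 x4 a2 (by omega) (by omega) c2 (h ▸ c4)
  refine (card_le_card hcov).trans ((card_union_le _ _).trans (Nat.add_le_add ?_ ?_))
  · refine (card_union_le _ _).trans (Nat.add_le_add ((card_union_le _ _).trans
      (Nat.add_le_add ?_ ?_)) ?_)
    · have h := hAc 0 (by omega)
      have e : 5 * M - 0 - M = 4 * M := by omega
      rw [e] at h
      exact h
    · have h := hAc (2 * M) (by omega)
      have e : 5 * M - 2 * M - M = 2 * M := by omega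
      rw [e] at h
      exact h
    · have h := hAc (4 * M) (by omega)
      have e : 5 * M - 4 * M - M = 0 := by omega
      rw [e] at h
      exact h
  · exact card_biUnion_le.trans (sum_le_sum hBc)

/-- a small value -/
theorem small (A B α β : ℝ) (hα : 0 < α) (hβ : 0 < β) :
    ∃ M : ℕ, 3 ≤ M ∧ A * Real.exp (-(α * M)) + B * ((5 * (M : ℝ) + 1) ^ 2 *
      Real.exp (-(β * M))) < 1 := by
  have hM : Tendsto (fun M : ℕ => (M : ℝ)) atTop atTop := tendsto_natCast_atTop_atTop
  have h1 : Tendsto (fun M : ℕ => Real.exp (-(α * M))) atTop (𝓝 0) := by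
    have := (Real.tendsto_pow_mul_exp_neg_atTop_nhds_zero 0).comp
      ((tendsto_id.const_mul_atTop hα).comp hM)
    refine this.congr fun M => ?_
    simp only [Function.comp_apply, pow_zero, one_mul, id]
  have hp : ∀ k : ℕ, Tendsto (fun M : ℕ => (β * (M : ℝ)) ^ k * Real.exp (-(β * M))) atTop
      (𝓝 0) := by
    intro k
    exact (Real.tendsto_pow_mul_exp_neg_atTop_nhds_zero k).comp
      ((tendsto_id.const_mul_atTop hβ).comp hM)
  have h2 : Tendsto (fun M : ℕ => (5 * (M : ℝ) + 1) ^ 2 * Real.exp (-(β * M))) atTop (𝓝 0) := by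
    have h3 := (((hp 2).const_mul (25 / β ^ 2)).add ((hp 1).const_mul (10 / β))).add (hp 0)
    simp only [mul_zero, add_zero] at h3
    refine h3.congr fun M => ?_
    field_simp
    ring
  have h3 := (h1.const_mul A).add (h2.const_mul B)
  simp only [mul_zero, add_zero] at h3
  have h4 := (h3.eventually (gt_mem_nhds zero_lt_one)).and (eventually_ge_atTop 3)
  obtain ⟨M, hM1, hM2⟩ := h4.exists
  exact ⟨M, hM2, hM1⟩

theorem pf_SA2A (hSPL : T_SPL) : T_SA2A := by
  classical
  intro m c H H' C₁ hG hH hY hE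
  by_contra hR
  unfold Rich at hR
  push Not at hR
  obtain ⟨ε, hε, C, hC⟩ := hR
  set γ : ℝ := H - H' with hγ
  have hγ0 : 0 < γ := by rw [hγ]; linarith
  set δ : ℝ := min ε γ / 10 with hδ
  have hδ0 : 0 < δ := by
    have : 0 < min ε γ := lt_min hε hγ0
    rw [hδ]; linarith
  have hδε : 10 * δ ≤ ε := by
    have := min_le_left ε γ
    rw [hδ]; linarith
  have hδγ : 10 * δ ≤ γ := by
    have := min_le_right ε γ
    rw [hδ]; linarith
  obtain ⟨D, hD⟩ := hG.upp δ hδ0
  have hD0 : 0 ≤ D := by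
    have h1 := hD 0
    have h2 : (0 : ℝ) ≤ ((FF 2 m 0).card : ℝ) := Nat.cast_nonneg _
    simp only [CharP.cast_eq_zero, mul_zero, Real.exp_zero, mul_one] at h1
    linarith
  have hC0 : 0 ≤ C := by
    have h1 := hC 0
    have h2 : (0 : ℝ) ≤ ((NN c.t 0).card : ℝ) := Nat.cast_nonneg _
    simp only [CharP.cast_eq_zero, mul_zero, Real.exp_zero, mul_one] at h1
    linarith
  have hC₁0 : 0 ≤ C₁ := by
    have h1 := hE 0
    have h2 : (0 : ℝ) ≤ ((EE m 0).card : ℝ) := Nat.cast_nonneg _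
    simp only [CharP.cast_eq_zero, mul_zero, Real.exp_zero, mul_one] at h1
    linarith
  obtain ⟨M, hM3, hM⟩ := small (3 * (D * C₁ * D)) (2 * (D * C * D)) (γ - 4 * δ) (ε - 4 * δ)
    (by linarith) (by linarith)
  have hcount := count hSPL m c hY M hM3
  -- the three windows
  have hwin : ∀ i j : ℕ, i + j = 4 * M →
      (((FF 2 m i).card * (EE m M).card * (FF 2 m j).card : ℕ) : ℝ) ≤
        D * C₁ * D * (Real.exp (H * (5 * M)) * Real.exp (-((γ - 4 * δ) * M))) := by
    intro i j hij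
    have hij' : (i : ℝ) + j = 4 * M := by exact_mod_cast hij
    push_cast
    have e1 := hD i
    have e2 := hD j
    have e3 := hE M
    have e4 : Real.exp (H * (5 * M)) * Real.exp (-((γ - 4 * δ) * M)) =
        Real.exp ((H + δ) * i) * Real.exp (H' * M) * Real.exp ((H + δ) * j) := by
      rw [← Real.exp_add, ← Real.exp_add, ← Real.exp_add]
      congr 1
      have e5 : (H + δ) * i + (H + δ) * j = (H + δ) * (4 * M) := by rw [← hij']; ring
      rw [hγ]
      linarith
    rw [e4]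
    have e5 : ((FF 2 m i).card : ℝ) * ((EE m M).card : ℝ) ≤
        (D * Real.exp ((H + δ) * i)) * (C₁ * Real.exp (H' * M)) :=
      mul_le_mul e1 e3 (Nat.cast_nonneg _) (by positivity)
    have e6 : ((FF 2 m i).card : ℝ) * ((EE m M).card : ℝ) * ((FF 2 m j).card : ℝ) ≤
        (D * Real.exp ((H + δ) * i)) * (C₁ * Real.exp (H' * M)) * (D * Real.exp ((H + δ) * j)) :=
      mul_le_mul e5 e2 (Nat.cast_nonneg _) (by positivity)
    refine e6.trans (le_of_eq ?_)
    ring
  -- the factors between two cubes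
  have hfac : ∀ z ∈ (range (5 * M + 1) ×ˢ range (5 * M + 1)).filter
      (fun z : ℕ × ℕ => M ≤ z.2 ∧ z.1 + z.2 ≤ 5 * M),
      (((FF 2 m z.1).card * (2 * (NN c.t z.2).card) * (FF 2 m (5 * M - z.1 - z.2)).card : ℕ) : ℝ)
        ≤ 2 * (D * C * D) * (Real.exp (H * (5 * M)) * Real.exp (-((ε - 4 * δ) * M))) := by
    intro z hz
    rw [mem_filter] at hz
    obtain ⟨-, hz1, hz2⟩ := hz
    obtain ⟨j, hj⟩ : ∃ j, 5 * M = z.1 + z.2 + j := Nat.exists_eq_add_of_le hz2
    have hjj : 5 * M - z.1 - z.2 = j := by omega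
    rw [hjj]
    have hj' : (5 : ℝ) * M = z.1 + z.2 + j := by exact_mod_cast hj
    have hz1' : (M : ℝ) ≤ z.2 := by exact_mod_cast hz1
    push_cast
    have e1 := hD z.1
    have e2 := hD j
    have e3 := hC z.2
    have e4 : Real.exp ((H + δ) * z.1) * Real.exp ((H - ε) * z.2) * Real.exp ((H + δ) * j) ≤
        Real.exp (H * (5 * M)) * Real.exp (-((ε - 4 * δ) * M)) := by
      rw [← Real.exp_add, ← Real.exp_add, ← Real.exp_add]
      apply Real.exp_le_exp.2
      have e5 : (H + δ) * z.1 + (H - ε) * z.2 + (H + δ) * j =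
          (H + δ) * (5 * M) - (δ + ε) * z.2 := by rw [hj']; ring
      have e6 : (δ + ε) * M ≤ (δ + ε) * z.2 := mul_le_mul_of_nonneg_left hz1' (by linarith)
      linarith
    have e5 : ((FF 2 m z.1).card : ℝ) * (2 * ((NN c.t z.2).card : ℝ)) ≤
        (D * Real.exp ((H + δ) * z.1)) * (2 * (C * Real.exp ((H - ε) * z.2))) :=
      mul_le_mul e1 (by linarith) (mul_nonneg (by norm_num) (Nat.cast_nonneg _))
        (mul_nonneg hD0 (Real.exp_pos _).le)
    have e6 : ((FF 2 m z.1).card : ℝ) * (2 * ((NN c.t z.2).card : ℝ)) * ((FF 2 m j).card : ℝ) ≤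
        (D * Real.exp ((H + δ) * z.1)) * (2 * (C * Real.exp ((H - ε) * z.2))) *
          (D * Real.exp ((H + δ) * j)) :=
      mul_le_mul e5 e2 (Nat.cast_nonneg _) (by positivity)
    refine e6.trans ?_
    have e7 : (D * Real.exp ((H + δ) * z.1)) * (2 * (C * Real.exp ((H - ε) * z.2))) *
          (D * Real.exp ((H + δ) * j)) = 2 * (D * C * D) *
        (Real.exp ((H + δ) * z.1) * Real.exp ((H - ε) * z.2) * Real.exp ((H + δ) * j)) := by
      ring
    rw [e7]
    exact mul_le_mul_of_nonneg_left e4 (by positivity)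
  have hlow := hG.low (5 * M)
  have hcount' : ((FF 2 m (5 * M)).card : ℝ) ≤
      3 * (D * C₁ * D * (Real.exp (H * (5 * M)) * Real.exp (-((γ - 4 * δ) * M)))) +
      (5 * (M : ℝ) + 1) ^ 2 *
        (2 * (D * C * D) * (Real.exp (H * (5 * M)) * Real.exp (-((ε - 4 * δ) * M)))) := by
    have h1 := (Nat.cast_le (α := ℝ)).2 hcount
    refine h1.trans ?_
    rw [Nat.cast_add, Nat.cast_add, Nat.cast_add, Nat.cast_sum]
    have h2 := hwin 0 (4 * M) (by omega)
    have h3 := hwin (2 * M) (2 * M) (by omega)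
    have h4 := hwin (4 * M) 0 (by omega)
    have h5 := sum_le_sum hfac
    have h6 : ∑ _z ∈ (range (5 * M + 1) ×ˢ range (5 * M + 1)).filter
        (fun z : ℕ × ℕ => M ≤ z.2 ∧ z.1 + z.2 ≤ 5 * M),
        2 * (D * C * D) * (Real.exp (H * (5 * M)) * Real.exp (-((ε - 4 * δ) * M))) ≤
        (5 * (M : ℝ) + 1) ^ 2 *
        (2 * (D * C * D) * (Real.exp (H * (5 * M)) * Real.exp (-((ε - 4 * δ) * M)))) := by
      rw [sum_const, nsmul_eq_mul]
      refine mul_le_mul_of_nonneg_right ?_ (by positivity)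
      have h7 : ((range (5 * M + 1) ×ˢ range (5 * M + 1)).filter
        (fun z : ℕ × ℕ => M ≤ z.2 ∧ z.1 + z.2 ≤ 5 * M)).card ≤ (5 * M + 1) ^ 2 := by
        refine (card_filter_le _ _).trans ?_
        rw [card_product, card_range, pow_two]
      exact_mod_cast h7
    linarith
  have hx : 0 < Real.exp (H * (5 * M)) := Real.exp_pos _
  have hfin : Real.exp (H * (5 * M)) ≤ Real.exp (H * (5 * M)) *
      (3 * (D * C₁ * D) * Real.exp (-((γ - 4 * δ) * M)) + 2 * (D * C * D) *
        ((5 * (M : ℝ) + 1) ^ 2 * Real.exp (-((ε - 4 * δ) * M)))) := by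
    push_cast at hlow
    refine (hlow.trans hcount').trans (le_of_eq ?_)
    ring
  have := mul_lt_mul_of_pos_left hM hx
  linarith

end Pool.Agent.H94.PG
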