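import Pool.Agent.H25.PG.Targets

/-!
# Row D4: shift of the digits
-/

set_option autoImplicit false

namespace Pool.Agent.H94.PG

open Pool.Agent.H25.PG

theorem pf_D4 : T_D4 := by
  intro g e q j hg
  have hg0 : 0 < g := by omega
  unfold dg
  split_ifs with h
  · -- `j < e`
    obtain ⟨d, rfl⟩ : ∃ d, e = j + (d + 1) := ⟨e - j - 1, by omega⟩
    have h1 : g ^ (j + (d + 1)) * q = g ^ j * (g * (g ^ d * q)) := by
      rw [pow_add, pow_succ]; ring
    rw [h1, Nat.mul_div_cancel_left _ (pow_pos hg0 j)]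
    exact Nat.mul_mod_right g _
  · obtain ⟨d, rfl⟩ : ∃ d, j = e + d := ⟨j - e, by omega⟩
    rw [pow_add, Nat.mul_div_mul_left _ _ (pow_pos hg0 e)]
    simp

end Pool.Agent.H94.PG
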